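import Pool.Agent.Y245.SC.Stm3

/-! # SC-SPLIT and SC-TRP: local coordinates near a pole -/

set_option autoImplicit false

open Complex MeasureTheory Metric Set Filter Topology ComplexConjugate

namespace Pool.Agent.Y987.SC

open Pool.Agent.Y245.SC

theorem split : S_SPLIT := by
  intro ρ c x E hρ hx hxc hne hE hEc
  have hb : ball c ρ ∈ 𝓝 c := ball_mem_nhds c hρ
  have hcb : c ∈ ball c ρ := mem_ball_self hρ
  have hxt : DifferentiableOn ℂ (dslope x c) (ball c ρ) :=
    (Complex.differentiableOn_dslope hb).2 hx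
  have hxt0 : ∀ ω ∈ ball c ρ, dslope x c ω ≠ 0 := by
    intro ω hω
    by_cases h : ω = c
    · rw [h, dslope_same]; exact hxc
    · rw [dslope_of_ne _ h, slope_def_field]
      exact div_ne_zero (sub_ne_zero.2 (hne ω hω h)) (sub_ne_zero.2 h)
  have hmul : DifferentiableOn ℂ (fun ω => E ω * dslope x c ω) (ball c ρ) := hE.mul hxt
  have hg : DifferentiableOn ℂ (dslope (fun ω => E ω * dslope x c ω) c) (ball c ρ) :=
    (Complex.differentiableOn_dslope hb).2 hmul
  refine ⟨E c * deriv x c, fun ω => dslope (fun ω => E ω * dslope x c ω) c ω / dslope x c ω,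
    mul_ne_zero hEc hxc, hg.div hxt hxt0, ?_⟩
  intro ω hω h
  have h1 := hxt0 ω hω
  have h2 : ω - c ≠ 0 := sub_ne_zero.2 h
  have h3 : x ω - x c = (ω - c) * dslope x c ω := by
    rw [dslope_of_ne _ h, slope_def_field]
    field_simp
  have h4 : dslope (fun ω => E ω * dslope x c ω) c ω
      = (E ω * dslope x c ω - E c * deriv x c) / (ω - c) := by
    rw [dslope_of_ne _ h, slope_def_field, dslope_same]
  simp only
  rw [h4, h3, pow_one]
  field_simp
  ring

theorem trp : S_TRP := by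
  intro φ E ℓ y1 ε m hℓ hε hE hE0 hφ
  set w1 : ℂ := exp ((ℓ : ℂ) + y1 * I) with hw1
  have hpt : -(conj (pt ℓ y1)) = (ℓ : ℂ) + y1 * I := by
    simp [pt, map_add, map_mul, Complex.conj_I]
    ring
  have hptc : conj w1 = exp (-(pt ℓ y1)) := by
    rw [hw1, ← hpt, ← Complex.exp_conj]
    simp
  set e : ℂ → ℂ := dslope (fun ω => exp (-ω)) (pt ℓ y1) with he
  have hexp : Differentiable ℂ (fun ω : ℂ => exp (-ω)) := by fun_prop
  have he_diff : Differentiable ℂ e := by
    rw [← differentiableOn_univ, he, Complex.differentiableOn_dslope univ_mem,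
      differentiableOn_univ]
    exact hexp
  have he0 : e (pt ℓ y1) ≠ 0 := by
    rw [he, dslope_same]
    have hd : HasDerivAt (fun ω : ℂ => exp (-ω)) (exp (-(pt ℓ y1)) * (-1)) (pt ℓ y1) :=
      ((hasDerivAt_id (pt ℓ y1)).neg).cexp
    rw [hd.deriv]
    exact mul_ne_zero (exp_ne_zero _) (by norm_num)
  -- neighbourhoods
  have hc1 : ∀ᶠ ω in 𝓝 (pt ℓ y1), e ω ≠ 0 :=
    he_diff.continuous.continuousAt.eventually_ne he0
  have hcv : Continuous (fun ω : ℂ => exp (-(conj ω))) := by fun_prop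
  have hc2 : ∀ᶠ ω in 𝓝 (pt ℓ y1), exp (-(conj ω)) ∈ ball w1 ε := by
    have h1 : Tendsto (fun ω : ℂ => exp (-(conj ω))) (𝓝 (pt ℓ y1)) (𝓝 w1) := by
      have := hcv.tendsto (pt ℓ y1)
      rw [hpt] at this
      exact this
    exact h1 (ball_mem_nhds w1 hε)
  obtain ⟨ρ0, hρ0, hball⟩ := Metric.eventually_nhds_iff_ball.1 (hc1.and hc2)
  set ρ : ℝ := min ρ0 (min (ℓ / 2) (1 / 2)) with hρ
  have hρpos : 0 < ρ := lt_min hρ0 (lt_min (by linarith) (by norm_num))
  have hρℓ : ρ < ℓ := lt_of_le_of_lt ((min_le_right _ _).trans (min_le_left _ _)) (by linarith)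
  have hρ1 : ρ < 1 := lt_of_le_of_lt ((min_le_right _ _).trans (min_le_right _ _)) (by norm_num)
  have hsub : ∀ ω ∈ ball (pt ℓ y1) ρ, e ω ≠ 0 ∧ exp (-(conj ω)) ∈ ball w1 ε := fun ω hω =>
    hball ω (ball_subset_ball (min_le_left _ _) hω)
  refine ⟨ρ, fun ω => conj (E (exp (-(conj ω)))) / e ω ^ m, hρpos, hρℓ, hρ1, ?_, ?_, ?_⟩
  · intro ω hω
    have h1 : DifferentiableAt ℂ (fun z : ℂ => E (exp (-z))) (conj ω) := by
      have hE' : DifferentiableAt ℂ E (exp (-(conj ω))) :=
        (hE _ (hsub ω hω).2).differentiableAt (isOpen_ball.mem_nhds (hsub ω hω).2)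
      exact hE'.comp (conj ω) (hexp (conj ω))
    have h2 := h1.conj_conj
    rw [Complex.conj_conj] at h2
    have h3 : DifferentiableAt ℂ (fun ω => conj (E (exp (-(conj ω))))) ω := h2
    exact (h3.div ((he_diff ω).pow m) (pow_ne_zero _ (hsub ω hω).1)).differentiableWithinAt
  · have h1 : E (exp (-(conj (pt ℓ y1)))) ≠ 0 := by rw [hpt]; exact hE0
    refine div_ne_zero ?_ (pow_ne_zero _ he0)
    exact (map_ne_zero _).2 h1
  · intro ω hω hre
    have hv : ‖exp (-(conj ω))‖ < Real.exp ℓ := by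
      rw [Complex.norm_exp]
      apply Real.exp_lt_exp.2
      simp only [neg_re, conj_re]
      linarith
    have h1 := hφ _ (hsub ω hω).2 hv
    have hne : ω ≠ pt ℓ y1 := by
      rintro rfl
      simp [pt] at hre
    have h2 : conj (exp (-(conj ω))) = exp (-ω) := by
      rw [← Complex.exp_conj]; simp
    have h3 : exp (-ω) - exp (-(pt ℓ y1)) = (ω - pt ℓ y1) * e ω := by
      rw [he, dslope_of_ne _ hne, slope_def_field]
      have : ω - pt ℓ y1 ≠ 0 := sub_ne_zero.2 hne
      field_simp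
    show conj (φ (exp (-(conj ω)))) = _
    rw [h1, map_div₀, map_pow, map_sub, h2, hptc, h3, mul_pow]
    have h4 : e ω ≠ 0 := (hsub ω hω).1
    have h5 : ω - pt ℓ y1 ≠ 0 := sub_ne_zero.2 hne
    simp only
    field_simp

end Pool.Agent.Y987.SC
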